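import Pool.Agent.K4H92.LP.Main
import Pool.Agent.K4H92.LP.KK.Main
set_option autoImplicit false

/-!
# A deterministic pivot rule which sees neither `b` nor `c`

Linear programs `max c x`, `A x ≤ b`, `x ≥ 0` with `m` rows, `n` variables and arbitrary real data
(degenerate and unbounded ones included). The matrix `A` is known, but the right-hand side `b` and the
objective `c` are hidden. A rule walks on the vertices of the polyhedron. At a vertex it is told only
names: which constraints are tight there, and for each improving edge (bounded or not) which constraints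
are tight on the whole edge; it is told no coordinates, slopes, lengths, costs or other numbers and
nothing about vertices which it has not visited. It remembers what it was told on its way. It answers
with the name of the edge to follow.

Result. Let `D` be the monotone diameter for the matrix `A`: the least number such that for all `b`, all
`c` and from all vertices there is a path of at most `D` improving edges to an optimal vertex or to a
vertex with an unbounded improving edge. There is one such deterministic rule which for all `b`, `c` and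
from every vertex makes at most `(2 (m + n) + 1) (m + n + 1) ^ 2 D` pivots, all of them improving, and if
the last vertex is not optimal names an unbounded improving edge of it. Without any assumption, this number
is quasi-polynomial: at most `(2 (m + n + 1)) ^ (⌊log₂ (m + n)⌋ + 5)`.

So for every class of matrices the following are the same, up to a polynomial factor: the monotone
diameter; the number of pivots of the best rule which knows all the data; the number of pivots of the best
rule which knows only the matrix, and sees only names. The gap between short paths and rules which find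
them is thus not one of information (on abstract cubes it is, by the starting result
`AllDeterministicRules`): it is only the gap between existence and fast computation of the rule.

Proof. The data `(b, c)` is a point of a space of dimension `N = m + n`. The data compatible with the
names seen so far form a convex set, because the tangent directions at a vertex depend on `A` and on
the names of the tight constraints only, and the vertex is then a linear function of `b`. By a count of sign
vectors, `2 ^ ((2 N + 3) N)` points of this space represent all data. If `V` is the set of representatives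
still compatible, let `z` be a centerpoint of `V` (Helly): it lies in the convex hull of each subset of `V`
with more than `N / (N + 1) |V|` points, and by convexity it is compatible data as well. The rule follows an
improving path for `z` with at most `D` edges; as soon as it is told something different from what it
would be told with the data `z`, at most `N / (N + 1) |V|` of the representatives are left, since otherwise
`z` would be in their convex hull and so compatible. This happens at most
`(N + 1) ^ 2 (2 N + 1)` times. The quasi-polynomial bound for `D` is the argument of Kalai and Kleitman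
in its monotone form, for arbitrary (degenerate, unbounded) polyhedra.
-/

namespace Pool.Agent.Results.MP_4d246d_lc.HiddenData

open Finset

/-- the polyhedron `A x ≤ b`, `x ≥ 0` -/
def polyhedron {m n : ℕ} (A : Fin m → Fin n → ℝ) (b : Fin m → ℝ) : Set (Fin n → ℝ) :=
  {x | (∀ i, ∑ j, A i j * x j ≤ b i) ∧ ∀ j, 0 ≤ x j}

/-- the objective function `c x` -/
def val {n : ℕ} (c x : Fin n → ℝ) : ℝ := ∑ j, c j * x j

/-- `x` and `y` are joined by an edge of `P` on which the objective function increases -/
def ImprovingEdge {n : ℕ} (P : Set (Fin n → ℝ)) (c x y : Fin n → ℝ) : Prop :=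
  IsExposed ℝ P (segment ℝ x y) ∧ val c x < val c y

/-- `P` has an unbounded edge at `x`, in the direction `d`, on which the objective function
increases -/
def UnboundedEdge {n : ℕ} (P : Set (Fin n → ℝ)) (c x d : Fin n → ℝ) : Prop :=
  IsExposed ℝ P {z | ∃ t : ℝ, 0 ≤ t ∧ z = x + t • d} ∧ 0 < val c d

/-- the names of the constraints: `inl i` for the row `i` of `A x ≤ b`, and `inr j` for `x j ≥ 0` -/
abbrev Name (m n : ℕ) : Type := Fin m ⊕ Fin n

open Classical in
/-- the names of the constraints which hold with equality at `x` -/
noncomputable def tightAt {m n : ℕ} (A : Fin m → Fin n → ℝ) (b : Fin m → ℝ) (x : Fin n → ℝ) :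
    Finset (Name m n) :=
  univ.filter (Sum.elim (fun i => ∑ j, A i j * x j = b i) fun j => x j = 0)

/-- what is told at the vertex `x`: the names of the tight constraints, and the names of the improving
edges. The name of an edge is the set of the constraints which are tight on the whole edge. -/
noncomputable def view {m n : ℕ} (A : Fin m → Fin n → ℝ) (b : Fin m → ℝ) (c x : Fin n → ℝ) :
    Finset (Name m n) × Set (Finset (Name m n)) :=
  (tightAt A b x, {Z | (∃ y, ImprovingEdge (polyhedron A b) c x y ∧
    Z = tightAt A b x ∩ tightAt A b y) ∨ ∃ d, UnboundedEdge (polyhedron A b) c x d ∧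
      Z = tightAt A b x ∩ tightAt A b (x + d)})

/-- everything told at `x 0, …, x k` -/
noncomputable def history {m n : ℕ} (A : Fin m → Fin n → ℝ) (b : Fin m → ℝ) (c : Fin n → ℝ)
    (x : ℕ → Fin n → ℝ) (k : ℕ) : List (Finset (Name m n) × Set (Finset (Name m n))) :=
  (List.range (k + 1)).map fun j => view A b c (x j)

/-- `x 0, …, x N` is a path of `N` improving edges from the vertex `v` to an optimal vertex, or to a
vertex with an unbounded improving edge -/
def ImprovingPath {m n : ℕ} (A : Fin m → Fin n → ℝ) (b : Fin m → ℝ) (c v : Fin n → ℝ) (N : ℕ)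
    (x : ℕ → Fin n → ℝ) : Prop :=
  x 0 = v ∧ (∀ k ≤ N, x k ∈ (polyhedron A b).extremePoints ℝ) ∧
    (∀ k < N, ImprovingEdge (polyhedron A b) c (x k) (x (k + 1))) ∧
    ((∀ y ∈ polyhedron A b, val c y ≤ val c (x N)) ∨ ∃ d, UnboundedEdge (polyhedron A b) c (x N) d)

/-- every vertex has a path of at most `D` improving edges to an end -/
def Short {m n : ℕ} (A : Fin m → Fin n → ℝ) (D : ℕ) : Prop :=
  ∀ (b : Fin m → ℝ) (c : Fin n → ℝ), ∀ v ∈ (polyhedron A b).extremePoints ℝ,
    ∃ N ≤ D, ∃ x, ImprovingPath A b c v N x

/-- the monotone diameter for the matrix `A` -/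
noncomputable def monotoneDiameter {m n : ℕ} (A : Fin m → Fin n → ℝ) : ℕ := sInf {D | Short A D}

/-- `ρ` is a rule which for all `b`, `c` and `v` finds a path `x 0, …, x N` of `N` improving edges, where
`N` has the property `P`, by answering at each `x k` with the name of the edge to follow -/
def Works {m n : ℕ} (A : Fin m → Fin n → ℝ) (P : ℕ → Prop)
    (ρ : List (Finset (Name m n) × Set (Finset (Name m n))) → Finset (Name m n)) : Prop :=
  ∀ (b : Fin m → ℝ) (c : Fin n → ℝ), ∀ v ∈ (polyhedron A b).extremePoints ℝ,
    ∃ N, P N ∧ ∃ x, ImprovingPath A b c v N x ∧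
      (∀ k < N, tightAt A b (x k) ∩ tightAt A b (x (k + 1)) = ρ (history A b c x k)) ∧
      ((∀ y ∈ polyhedron A b, val c y ≤ val c (x N)) ∨
        ∃ d, UnboundedEdge (polyhedron A b) c (x N) d ∧
          tightAt A b (x N) ∩ tightAt A b (x N + d) = ρ (history A b c x N))

open K4H92.LP in
theorem rule_of_short (m n : ℕ) (A : Fin m → Fin n → ℝ) (D : ℕ) (hD : Short A D) :
    ∃ ρ, Works A (fun N => N ≤ (2 * (m + n) + 1) * (m + n + 1) ^ 2 * D) ρ := by
  classical
  have hP : ∀ b, polyhedron A b = PP (rows A) (rhs b) := by
    intro b
    ext x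
    exact mem_PP.symm
  have hval : ∀ c x : Fin n → ℝ, val c x = lf c x := fun c x => (lf_apply c x).symm
  have htight : ∀ b x, tightAt A b x = tight (rows A) (rhs b) x := by
    intro b x
    ext i
    rw [mem_tight, tightAt, mem_filter]
    rcases i with i | j
    · rw [rows_inl]
      simp [rhs]
    · rw [rows_inr]
      simp [rhs]
  have hview : ∀ (z : Hid m n) (x : Fin n → ℝ), Vert (rows A) (rhs z.1) x →
      view A z.1 z.2 x = vw A z x := by
    intro z x hx
    rw [view, vw, htight]
    congr 1
    ext Z
    constructor
    · rintro (⟨y, ⟨h1, h2⟩, rfl⟩ | ⟨d, ⟨h1, h2⟩, rfl⟩)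
      · rw [hP] at h1
        rw [hval, hval] at h2
        obtain ⟨e, t, he, ht, hy, hc⟩ := dir_of_edge hx h1 h2
        refine ⟨e, he, hc, ?_⟩
        rw [htight, hy]
        exact inter_tight ht
      · rw [hP] at h1
        rw [hval] at h2
        obtain ⟨e, t, he, ht, hy, hc, _⟩ := dir_of_ray hx h1 h2
        refine ⟨e, he, hc, ?_⟩
        rw [htight, hy]
        exact inter_tight ht
    · rintro ⟨e, he, hc, rfl⟩
      rcases step_end hx he with h | ⟨t, ht, h1, h2⟩
      · right
        refine ⟨e, ⟨?_, ?_⟩, ?_⟩
        · rw [hP]; exact ray_exposed' hx he h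
        · rw [hval]; exact hc
        · have := inter_tight (a := rows A) (β := rhs z.1) (x := x) (e := e) (t := 1) one_pos
          rw [one_smul] at this
          rw [htight, this]
          rfl
      · left
        have hstep : Step (rows A) (rhs z.1) (lf z.2) x (x + t • e) :=
          ⟨hx, h1, e, t, he, hc, ht, rfl, h2⟩
        refine ⟨x + t • e, ⟨?_, ?_⟩, ?_⟩
        · rw [hP]; exact hstep.exposed
        · rw [hval, hval]; exact hstep.lt
        · rw [htight]
          exact (inter_tight ht).symm
  obtain ⟨ρ, hρ⟩ := main A D (fun z v hv => by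
    have hv' : v ∈ (polyhedron A z.1).extremePoints ℝ := by rw [hP]; exact hv.extreme
    obtain ⟨N, hN, x, h0, h1, h2, h3⟩ := hD z.1 z.2 v hv'
    have h1' : ∀ k ≤ N, Vert (rows A) (rhs z.1) (x k) := fun k hk => by
      have := h1 k hk
      rw [hP] at this
      exact Vert.of_extreme this
    refine ⟨N, hN, x, h0, ⟨h1', fun k hk => ?_⟩, ?_⟩
    · obtain ⟨g1, g2⟩ := h2 k hk
      rw [hP] at g1
      rw [hval, hval] at g2
      exact dir_of_edge (h1' k hk.le) g1 g2
    · rcases h3 with h | ⟨d, g1, g2⟩
      · left
        intro y hy
        rw [← hval, ← hval]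
        exact h y (by rw [hP]; exact hy)
      · right
        rw [hP] at g1
        rw [hval] at g2
        obtain ⟨e, t, he, ht, _, hc, hu⟩ := dir_of_ray (h1' N le_rfl) g1 g2
        exact ⟨e, he, hc, hu⟩)
  refine ⟨ρ, fun b c v hv => ?_⟩
  rw [hP] at hv
  obtain ⟨N, hN, x, h0, ⟨h1, h2⟩, h3, h4⟩ := hρ (b, c) v (Vert.of_extreme hv)
  have hhist : ∀ k ≤ N, history A b c x k = hist A (b, c) x k := by
    intro k hk
    apply List.map_congr_left
    intro j hj
    have hj' : j ≤ N := by
      have := List.mem_range.1 hj
      omega
    exact hview (b, c) (x j) (h1 j hj')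
  have hstep : ∀ k < N, Step (rows A) (rhs b) (lf c) (x k) (x (k + 1)) := by
    intro k hk
    obtain ⟨e, t, he, ht, hx, hc⟩ := h2 k hk
    refine ⟨h1 k hk.le, h1 (k + 1) hk, e, t, he, hc, ht, hx, fun s hs => ?_⟩
    have hv := h1 (k + 1) hk
    rw [hx] at hv
    obtain ⟨i, hi, hie⟩ := tight_pos (h1 k hk.le) ht he hv
    rw [mem_tight, map_add, map_smul, smul_eq_mul] at hi
    have := hs i
    rw [map_add, map_smul, smul_eq_mul] at this
    have h5 : s * rows A i e ≤ t * rows A i e := by
      have : rows A i (x k) + s * rows A i e ≤ rows A i (x k) + t * rows A i e := by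
        rw [hi]; exact this
      linarith
    exact le_of_mul_le_mul_right h5 hie
  have hend : (∀ y ∈ polyhedron A b, val c y ≤ val c (x N)) ∨
      ∃ d, UnboundedEdge (polyhedron A b) c (x N) d ∧
        tightAt A b (x N) ∩ tightAt A b (x N + d) = ρ (history A b c x N) := by
    rcases h4 with h | ⟨e, he, hc, hu, hz⟩
    · left
      intro y hy
      rw [hval, hval]
      rw [hP] at hy
      exact h y hy
    · right
      refine ⟨e, ⟨?_, ?_⟩, ?_⟩
      · rw [hP]
        refine ray_exposed' (h1 N le_rfl) he fun t ht i => ?_
        rw [map_add, map_smul, smul_eq_mul]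
        have g1 := mul_nonpos_of_nonneg_of_nonpos ht (hu i)
        have g2 := (h1 N le_rfl).1 i
        linarith
      · rw [hval]; exact hc
      · have := inter_tight (a := rows A) (β := rhs b) (x := x N) (e := e) (t := 1) one_pos
        rw [one_smul] at this
        rw [htight, htight, this, hhist N le_rfl, ← hz]
        rfl
  refine ⟨N, hN, x, ⟨h0, fun k hk => ?_, fun k hk => ⟨?_, ?_⟩, ?_⟩, fun k hk => ?_, hend⟩
  · rw [hP]; exact (h1 k hk).extreme
  · rw [hP]; exact (hstep k hk).exposed
  · rw [hval, hval]; exact (hstep k hk).lt
  · rcases hend with h | ⟨d, h, _⟩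
    · exact Or.inl h
    · exact Or.inr ⟨d, h⟩
  · obtain ⟨e, t, he, ht, hx, hc⟩ := h2 k hk
    rw [hhist k hk.le, ← h3 k hk e t ht he hx, htight, htight, hx]
    exact inter_tight ht

open K4H92.LP in
/-- the monotone diameter is quasi-polynomial (Kalai and Kleitman) -/
theorem short_kk (m n : ℕ) (A : Fin m → Fin n → ℝ) :
    Short A (kk n (Nat.log 2 (m + n) + 1)) := by
  classical
  intro b c v hv
  have hP : polyhedron A b = PP (rows A) (rhs b) := by
    ext x
    exact mem_PP.symm
  have hval : ∀ c x : Fin n → ℝ, val c x = lf c x := fun c x => (lf_apply c x).symm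
  rw [hP] at hv
  obtain ⟨N, w, h1, h2, h3⟩ := kk_walk n (Nat.log 2 (m + n) + 1) (Fin n → ℝ) (Fin m ⊕ Fin n)
    (rows A) (rhs b) (lf c) (by simp) v (Vert.of_extreme hv) (by
      refine lt_of_le_of_lt (card_le_univ _) ?_
      rw [Fintype.card_sum, Fintype.card_fin, Fintype.card_fin]
      exact Nat.lt_pow_succ_log_self (by norm_num) _)
  obtain ⟨x, g1, g2, g3, g4⟩ := h2.seq
  refine ⟨N, h1, x, g1, fun k hk => ?_, fun k hk => ⟨?_, ?_⟩, ?_⟩
  · rw [hP]; exact (g3 k hk).extreme
  · rw [hP]; exact (g4 k hk).exposed
  · rw [hval, hval]; exact (g4 k hk).lt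
  · rw [g2]
    rcases h3 with h | ⟨e, he, hce, hu⟩
    · left
      intro y hy
      rw [hval, hval]
      rw [hP] at hy
      exact h y hy
    · right
      refine ⟨e, ?_, ?_⟩
      · rw [hP]
        refine ray_exposed' h2.vert he fun t ht i => ?_
        rw [map_add, map_smul, smul_eq_mul]
        have g5 := mul_nonpos_of_nonneg_of_nonpos ht (hu i)
        have g6 := h2.vert.1 i
        linarith
      · rw [hval]; exact hce

theorem bound_le (m n : ℕ) : (2 * (m + n) + 1) * (m + n + 1) ^ 2 *
    K4H92.LP.kk n (Nat.log 2 (m + n) + 1) ≤ (2 * (m + n + 1)) ^ (Nat.log 2 (m + n) + 5) := by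
  set M := m + n with hM
  set L := Nat.log 2 M with hL
  have h1 := K4H92.LP.kk_le n (L + 1)
  have h2 : 2 ^ L ≤ M + 1 := by
    rcases Nat.eq_zero_or_pos M with h0 | h0
    · rw [hL, h0]; simp
    · exact (Nat.pow_log_le_self 2 h0.ne').trans (Nat.le_succ _)
  have h3 : L ≤ M := Nat.log_le_self 2 M
  have h4 : (n + (L + 1)).choose n ≤ (2 * (M + 1)) ^ (L + 1) := by
    rw [Nat.choose_symm_add]
    refine (Nat.choose_le_pow _ _).trans ?_
    exact Nat.pow_le_pow_left (by omega) _
  calc (2 * M + 1) * (M + 1) ^ 2 * K4H92.LP.kk n (L + 1)
      ≤ (2 * (M + 1)) * (M + 1) ^ 2 * (2 ^ (L + 1) * (n + (L + 1)).choose n) := by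
        apply Nat.mul_le_mul
        · exact Nat.mul_le_mul_right _ (by omega)
        · omega
    _ ≤ (2 * (M + 1)) * (M + 1) ^ 2 * ((2 * (M + 1)) * (2 * (M + 1)) ^ (L + 1)) := by
        apply Nat.mul_le_mul_left
        apply Nat.mul_le_mul _ h4
        rw [pow_succ]
        omega
    _ ≤ (2 * (M + 1)) * (2 * (M + 1)) ^ 2 * ((2 * (M + 1)) * (2 * (M + 1)) ^ (L + 1)) := by
        apply Nat.mul_le_mul_right
        apply Nat.mul_le_mul_left
        exact Nat.pow_le_pow_left (by omega) _
    _ = (2 * (M + 1)) ^ (L + 5) := by ring

/-- **One rule which sees only names is as good as the monotone diameter, up to a polynomial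
factor, and makes quasi-polynomially many pivots.** -/
theorem result (m n : ℕ) (A : Fin m → Fin n → ℝ) :
    ∃ ρ : List (Finset (Name m n) × Set (Finset (Name m n))) → Finset (Name m n),
      Works A (fun N => N ≤ (2 * (m + n) + 1) * (m + n + 1) ^ 2 * monotoneDiameter A ∧
        N ≤ (2 * (m + n + 1)) ^ (Nat.log 2 (m + n) + 5)) ρ := by
  have hne : {D | Short A D}.Nonempty := ⟨_, short_kk m n A⟩
  have hmem : Short A (monotoneDiameter A) := Nat.sInf_mem hne
  obtain ⟨ρ, hρ⟩ := rule_of_short m n A _ hmem
  refine ⟨ρ, fun b c v hv => ?_⟩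
  obtain ⟨N, hN, h⟩ := hρ b c v hv
  refine ⟨N, ⟨hN, hN.trans ((Nat.mul_le_mul_left _ ?_).trans (bound_le m n))⟩, h⟩
  exact Nat.sInf_le (short_kk m n A)

end Pool.Agent.Results.MP_4d246d_lc.HiddenData
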