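import Pool.Agent.K4H92.LP.Link
set_option autoImplicit false

/-!
# The shadow vertex rule is polynomial on linear programs of bounded incidence treedepth

Linear programs `max c x`, `A x ≤ b`, `x ≥ 0` with `m` rows, `n` variables and arbitrary real data
(degenerate and unbounded ones included). We say that `A` has a nested structure of depth `D` if at
each of `D` levels one row or one column may be deleted, and then the matrix may split into any
number of blocks without common rows and columns, to which this applies again; a matrix of depth `0`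
has no nonzero entries. In terms of graphs: the bipartite graph of the nonzero entries of `A` (rows
against columns) has bounded treedepth. Examples: blocks of bounded size with a bounded number of
linking rows and of linking columns (two-stage and multi-stage stochastic programs, n-fold and tree-fold
programs, 4-block programs), nested to a bounded depth. The starting result `NestedBlocks` allows only the
deletion of rows in its nested structure (besides few exceptional rows and columns), which makes the number
of all edge directions polynomial. With linking columns this is false, and with linking rows and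
columns also the number of values of a linking variable at the vertices is exponential in general.

Result. Every projection of the polyhedron to `k` dimensions has at most
`(m + n + 1) ^ (8 (k + D + 2)) ^ (D + 1)` vertices. Hence the shadow vertex rule (the parametric rule of
Gass and Saaty) needs, from every vertex and for every `c`, less than
`(m + n + 1) ^ (8 (D + 4)) ^ (D + 1)` pivots, all of them along improving edges: a polynomial number for
every fixed `D`. (On general linear programs, already if every row has two nonzero entries, in neighbouring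
columns, this rule is exponential.)

Proof. We count the optimal partitions (the supports of the strictly complementary pairs) of the linear
programs with objective in a space `W` and right-hand side in a space `U`. A new column `a` replaces `U` by
`U + ℝ a` and at most doubles their number; a new row replaces `W` by a space of one dimension more. For
blocks numbers would be multiplied, but the partitions of each block are distinguished by the signs of a
polynomial number of linear functionals on `W` and on `U` (two types differ in relatively open convex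
cones, in `W` or in `U`, which are disjoint, so separated by a hyperplane); the functionals of all blocks
together have few sign vectors, as `W` and `U` have bounded dimension.
-/

namespace Pool.Agent.Results.MP_4d246d_lc.IncidenceTreedepth

open Finset

/-- the polyhedron `A x ≤ b`, `x ≥ 0` -/
def polyhedron {m n : ℕ} (A : Fin m → Fin n → ℝ) (b : Fin m → ℝ) : Set (Fin n → ℝ) :=
  {x | (∀ i, ∑ j, A i j * x j ≤ b i) ∧ ∀ j, 0 ≤ x j}

/-- the objective function `c x` -/
def val {n : ℕ} (c x : Fin n → ℝ) : ℝ := ∑ j, c j * x j

/-- `v` is the only point of `P` at which the objective function `p` is maximal -/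
def UniqueMax {n : ℕ} (P : Set (Fin n → ℝ)) (p v : Fin n → ℝ) : Prop :=
  v ∈ P ∧ ∀ x ∈ P, x ≠ v → val p x < val p v

/-- `x` and `y` are joined by an edge of `P` on which the objective function increases -/
def ImprovingEdge {n : ℕ} (P : Set (Fin n → ℝ)) (c x y : Fin n → ℝ) : Prop :=
  IsExposed ℝ P (segment ℝ x y) ∧ val c x < val c y

/-- `P` has an unbounded edge at `x`, in the direction `d`, on which the objective function
increases -/
def UnboundedEdge {n : ℕ} (P : Set (Fin n → ℝ)) (c x d : Fin n → ℝ) : Prop :=
  IsExposed ℝ P {z | ∃ t : ℝ, 0 ≤ t ∧ z = x + t • d} ∧ 0 < val c d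

/-- The rows `R` and the columns `X` of the matrix `A` form a nested structure of depth `D`: they
have no common nonzero entries; or there are two such structures without common rows and columns, and
the rows of each of them have no nonzero entries in the columns of the other; or one row or one column
is added to a structure of depth `D - 1`. -/
inductive Nested {m n : ℕ} (A : Fin m → Fin n → ℝ) : ℕ → Finset (Fin m) → Finset (Fin n) → Prop
  | nil (D : ℕ) (R : Finset (Fin m)) (X : Finset (Fin n)) (h : ∀ i ∈ R, ∀ j ∈ X, A i j = 0) :
      Nested A D R X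
  | union (D : ℕ) (R₁ R₂ : Finset (Fin m)) (X₁ X₂ : Finset (Fin n)) (hR : Disjoint R₁ R₂)
      (hX : Disjoint X₁ X₂) (h₁ : ∀ i ∈ R₁, ∀ j ∈ X₂, A i j = 0)
      (h₂ : ∀ i ∈ R₂, ∀ j ∈ X₁, A i j = 0) (c₁ : Nested A D R₁ X₁) (c₂ : Nested A D R₂ X₂) :
      Nested A D (R₁ ∪ R₂) (X₁ ∪ X₂)
  | row (D : ℕ) (R : Finset (Fin m)) (X : Finset (Fin n)) (i : Fin m) (hi : i ∉ R)
      (c : Nested A D R X) : Nested A (D + 1) (insert i R) X
  | col (D : ℕ) (R : Finset (Fin m)) (X : Finset (Fin n)) (j : Fin n) (hj : j ∉ X)
      (c : Nested A D R X) : Nested A (D + 1) R (insert j X)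

theorem nested_iff {m n : ℕ} {A : Fin m → Fin n → ℝ} {D : ℕ} {R : Finset (Fin m)}
    {X : Finset (Fin n)} (h : Nested A D R X) : K4H92.LP.Nested A D R X := by
  induction h with
  | nil D R X h => exact .nil D R X h
  | union D R₁ R₂ X₁ X₂ hR hX h₁ h₂ _ _ c₁ c₂ => exact .union D R₁ R₂ X₁ X₂ hR hX h₁ h₂ c₁ c₂
  | row D R X i hi _ c => exact .row D R X i hi c
  | col D R X j hj _ c => exact .col D R X j hj c

open K4H92.LP in
/-- **The shadow vertex rule is polynomial on linear programs of bounded incidence treedepth.** -/
theorem result (D m n : ℕ) (A : Fin m → Fin n → ℝ) (b : Fin m → ℝ) (hA : Nested A D univ univ) :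
    (∀ (k : ℕ) (W : Submodule ℝ (Fin n → ℝ)), Module.finrank ℝ W ≤ k →
      {v | ∃ p ∈ W, UniqueMax (polyhedron A b) p v}.Finite ∧
      {v | ∃ p ∈ W, UniqueMax (polyhedron A b) p v}.ncard ≤
        (m + n + 1) ^ (8 * (k + D + 2)) ^ (D + 1)) ∧
    ∀ c v : Fin n → ℝ, v ∈ (polyhedron A b).extremePoints ℝ →
      ∃ (d : Fin n → ℝ) (N : ℕ) (x : ℕ → Fin n → ℝ) (θ : ℕ → ℝ),
        N < (m + n + 1) ^ (8 * (D + 4)) ^ (D + 1) ∧ x 0 = v ∧ θ 0 = 0 ∧
        (∀ k ≤ N, x k ∈ (polyhedron A b).extremePoints ℝ ∧ 0 ≤ θ k ∧ θ k < 1 ∧
          UniqueMax (polyhedron A b) ((1 - θ k) • d + θ k • c) (x k)) ∧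
        (∀ k < N, θ k < θ (k + 1) ∧ ImprovingEdge (polyhedron A b) c (x k) (x (k + 1))) ∧
        ((∀ y ∈ polyhedron A b, val c y ≤ val c (x N)) ∨
          ∃ e, UnboundedEdge (polyhedron A b) c (x N) e) := by
  classical
  have hP : polyhedron A b = PP (rows A) (rhs b) := by
    ext x
    exact mem_PP.symm
  have hval : ∀ c x : Fin n → ℝ, val c x = lf c x := fun c x => (lf_apply c x).symm
  have hcard : ∀ (k : ℕ) (W : Submodule ℝ (Fin n → ℝ)), Module.finrank ℝ W ≤ k →
      (shadowVerts A b W).Finite ∧ (shadowVerts A b W).ncard ≤
        (m + n + 1) ^ (8 * (k + D + 2)) ^ (D + 1) := by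
    intro k W hW
    have h1 := (nested_iff hA).cnt (k + 1)
    have h2 := card_shadow h1 b W (by omega)
    simp only [card_univ, Fintype.card_fin] at h2
    have e : k + 1 + D + 1 = k + D + 2 := by ring
    rw [e] at h2
    exact h2
  have hset : ∀ W : Submodule ℝ (Fin n → ℝ),
      {v | ∃ p ∈ W, UniqueMax (polyhedron A b) p v} ⊆ shadowVerts A b W := by
    rintro W v ⟨p, hp, hv, hmax⟩
    rw [hP] at hv hmax
    obtain ⟨h1, h2⟩ := of_unique (f := lf p) hv (fun x hx hne => by
      have := hmax x hx hne
      rwa [hval, hval] at this)
    exact ⟨h1, p, hp, h2⟩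
  refine ⟨fun k W hW => ?_, fun c v hv => ?_⟩
  · obtain ⟨h1, h2⟩ := hcard k W hW
    exact ⟨h1.subset (hset W), (Set.ncard_le_ncard (hset W) h1).trans h2⟩
  · rw [hP] at hv
    have hvv := Vert.of_extreme hv
    obtain ⟨df, hgen, hneg⟩ := exists_gen (lf c) hvv
    -- the vector of `df`
    set d : Fin n → ℝ := fun j => df (Pi.single j 1) with hd
    have hdf : lf d = df := by
      apply LinearMap.pi_ext'
      intro j
      ext
      simp [lf, hd, Pi.single_apply]
    have hmix : ∀ θ : ℝ, mix df (lf c) θ = lf ((1 - θ) • d + θ • c) := by
      intro θ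
      ext x
      simp [mix_apply, ← hdf, lf_apply, mul_sum, add_mul, sum_add_distrib, mul_assoc]
    set W : Submodule ℝ (Fin n → ℝ) := Submodule.span ℝ {d, c} with hW
    have hWd : Module.finrank ℝ W ≤ 2 := by
      have h1 := finrank_span_finset_le_card (R := ℝ) ({d, c} : Finset (Fin n → ℝ))
      have h2 : (({d, c} : Finset (Fin n → ℝ)) : Set (Fin n → ℝ)) = {d, c} := by simp
      unfold Set.finrank at h1
      rw [h2] at h1
      exact h1.trans (card_insert_le _ _)
    have hmemW : ∀ θ : ℝ, (1 - θ) • d + θ • c ∈ W := fun θ =>
      W.add_mem (W.smul_mem _ (Submodule.subset_span (by simp)))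
        (W.smul_mem _ (Submodule.subset_span (by simp)))
    obtain ⟨hfin, hbound⟩ := hcard 2 W hWd
    have hstart : Sh (rows A) (rhs b) df (lf c) v 0 := by
      refine ⟨hvv, le_rfl, one_pos, fun e he => ?_⟩
      rw [mix_apply, sub_zero, one_mul, zero_mul, add_zero]
      exact hneg e he
    obtain ⟨N, x, θ, h1, h2, h3, h4, h5, h6⟩ := path hgen (S := hfin.toFinset)
      (fun w θ hw => by
        rw [Set.Finite.mem_toFinset]
        refine ⟨hw.1, _, hmemW θ, fun e he => ?_⟩
        rw [← hmix]
        exact hw.2.2.2 e he) v 0 hstart
    have hN : N < (m + n + 1) ^ (8 * (D + 4)) ^ (D + 1) := by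
      rw [← Set.ncard_eq_toFinset_card _ hfin] at h1
      have e : 2 + D + 2 = D + 4 := by ring
      rw [e] at hbound
      exact lt_of_lt_of_le h1 hbound
    rw [hP]
    refine ⟨d, N, x, θ, hN, h2, h3, fun k hk => ?_, fun k hk => ?_, ?_⟩
    · obtain ⟨g1, g2, g3, g4⟩ := h4 k hk
      refine ⟨g1.extreme, g2, g3, g1.1, fun y hy hne => ?_⟩
      rw [hval, hval, ← hmix]
      exact vert_lt g1 g4 hy hne
    · obtain ⟨g1, g2⟩ := h5 k hk
      refine ⟨g2, g1.exposed, ?_⟩
      rw [hval, hval]
      exact g1.lt
    · rcases h6 with g | ⟨e, he, hce, g⟩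
      · left
        intro y hy
        rw [hval, hval]
        exact vert_le (h4 N le_rfl).1 g hy
      · right
        refine ⟨e, ray_exposed' (h4 N le_rfl).1 he g, ?_⟩
        rw [hval]
        exact hce

end Pool.Agent.Results.MP_4d246d_lc.IncidenceTreedepth
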