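import Pool.Agent.K4H92.LP.TU.Det
import Pool.Agent.K4H92.HiddenDataFinal
set_option autoImplicit false

/-!
# Short improving paths for matrices with bounded subdeterminants or circuit imbalance

Linear programs `max c x`, `A x ≤ b`, `x ≥ 0` with `n` variables, any number `m` of rows and arbitrary real
vectors `b` and `c` (degenerate and unbounded programs included). The matrix `A` either is an integer matrix
all of whose square submatrices have determinants of absolute value at most `K` (for `K = 1`: the totally
unimodular matrices); or, more generally, it is a real matrix such that, after scaling the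
constraints, for every possible edge direction the slopes of the constraints along it (as far as they are
not `0`) differ at most by the factor `K` (the circuit imbalance is at most `K`).

Result. From every vertex there is a path of at most `n ^ 3 K (n K + 1) ^ 2` edges, on each of which the
objective `c` increases, to an optimal vertex or to a vertex with an unbounded improving edge. So the monotone
diameter of these polyhedra is polynomial in `n` and `K`, whatever the number of rows and the vectors `b` and
`c` are. For totally unimodular matrices the bound is `n ^ 3 (n + 1) ^ 2`. (By the result `HiddenData` it follows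
that for every such matrix there is one deterministic rule with polynomially many pivots for all `b` and all
`c`, which sees neither `b` nor `c`.)

Known were short paths between any two vertices, and simplex methods with random auxiliary objectives which
do not improve `c` in each step (Dyer and Frieze; Bonifas, Di Summa, Eisenbrand, Hähnle and Niemeier; Brunsch and
Röglin; Eisenbrand and Vempala; Dadush and Hähnle), and short improving paths for lattice polytopes in small
boxes.

Proof. We measure functionals by the norm which is dual to the largest slope of a constraint. Let `N(v)` be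
the open cone of the objectives for which `v` is the only maximum, and let `w(v)` be the sum of a basis of
tight rows at `v`, which is deep inside of `N(v)`. Choose `p` at random in the unit ball around `K w(v)`. We
follow the shadow path from `v` to the objective `p + T c` for a certain large `T`. If the moving point `p + t c`
leaves the cone `N(u)` during a time `h`, then it is in `N(u)` and not in `N(u) + s w(u)`, where `s`
is proportional to `h`; the ball around any point contains little of the union of these sets, since the translation
by `s w(u)` maps the part of `N(u)` in a slightly smaller ball into the ball. So the line meets few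
cones, without any assumption of nondegeneracy, and the path is short; it improves `c` in each step because
the objective moves from `p` in the direction `c`. At its end `p + T c` is a nonnegative combination of tight
rows, and a tight row with a large coefficient defines a face which contains maxima of `c` over the
polyhedron (or on which `c` is unbounded, if it is on the polyhedron). Induction on the dimension.
-/

namespace Pool.Agent.Results.MP_4d246d_lc.MonotoneDiameter

open Finset HiddenData

/-- the slope of the constraint `i` in the direction `e` (up to the sign) -/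
def slope {m n : ℕ} (A : Fin m → Fin n → ℝ) (i : Name m n) (e : Fin n → ℝ) : ℝ :=
  Sum.elim (fun i => ∑ j, A i j * e j) (fun j => e j) i

/-- `e` is a circuit, a possible direction of an edge of `A x ≤ b`, `x ≥ 0`: the constraints whose slope in
the direction `e` is `0` determine `e` up to a factor -/
def Circuit {m n : ℕ} (A : Fin m → Fin n → ℝ) (e : Fin n → ℝ) : Prop :=
  e ≠ 0 ∧ ∀ g, (∀ i, slope A i e = 0 → slope A i g = 0) → ∃ t : ℝ, g = t • e

/-- the circuit imbalance is at most `K`: after scaling the constraints by positive weights `w`, for each
circuit the slopes other than `0` differ at most by the factor `K` -/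
def Balanced {m n : ℕ} (A : Fin m → Fin n → ℝ) (K : ℕ) : Prop :=
  1 ≤ K ∧ ∃ w : Name m n → ℝ, (∀ i, 0 < w i) ∧ ∀ e, Circuit A e → ∀ i j, slope A i e ≠ 0 →
    w j * |slope A j e| ≤ K * (w i * |slope A i e|)

/-- `A` is an integer matrix all of whose square submatrices have determinants of absolute value at
most `K` -/
def SmallDets {m n : ℕ} (A : Fin m → Fin n → ℝ) (K : ℕ) : Prop :=
  ∃ B : Matrix (Fin m) (Fin n) ℤ, (∀ i j, A i j = B i j) ∧
    ∀ (k : ℕ) (r : Fin k → Fin m) (s : Fin k → Fin n), |(B.submatrix r s).det| ≤ K

open K4H92.LP in
theorem paths (m n K : ℕ) (A : Fin m → Fin n → ℝ) (hA : Balanced A K ∨ SmallDets A K)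
    (b : Fin m → ℝ) (c v : Fin n → ℝ) (hv : v ∈ (polyhedron A b).extremePoints ℝ) :
    ∃ N ≤ n ^ 3 * K * (n * K + 1) ^ 2, ∃ x, ImprovingPath A b c v N x := by
  classical
  have hK : 1 ≤ K ∧ ∃ w : Name m n → ℝ, (∀ i, 0 < w i) ∧ ∀ e, Elem (rows A) e → ∀ i j,
      rows A i e ≠ 0 → w j * |rows A j e| ≤ K * (w i * |rows A i e|) := by
    have hslope : ∀ i e, |slope A i e| = |rows A i e| := by
      rintro (i | j) e
      · rw [rows_inl]; rfl
      · rw [rows_inr, abs_neg]; rfl
    have hzero : ∀ i e, slope A i e = 0 ↔ rows A i e = 0 := fun i e => by
      rw [← abs_eq_zero, hslope, abs_eq_zero]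
    rcases hA with ⟨h1, w, h2, h3⟩ | ⟨B, hB, hdet⟩
    · refine ⟨h1, w, h2, fun e he i j hi => ?_⟩
      have h4 : Circuit A e := ⟨he.1, fun g hg => he.2 g fun i h => (hzero i g).1
        (hg i ((hzero i e).2 h))⟩
      have h5 := h3 e h4 i j fun h => hi ((hzero i e).1 h)
      rwa [hslope, hslope] at h5
    · have hAB : A = fun i j => (B i j : ℝ) := by
        funext i j
        exact hB i j
      rw [hAB]
      refine ⟨one_le_of_det hdet, fun _ => 1, fun _ => one_pos, fun e he i j hi => ?_⟩
      rw [one_mul, one_mul]
      exact circ_of_det hdet e he i j hi
  obtain ⟨hK1, w, hw, hcirc⟩ := hK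
  have hK0 : (0:ℝ) < K := by exact_mod_cast hK1
  set a : Name m n → (Fin n → ℝ) →ₗ[ℝ] ℝ := fun i => w i • rows A i with ha
  set β : Name m n → ℝ := fun i => w i * rhs b i with hβ
  have hax : ∀ i x, a i x = w i * rows A i x := fun i x => rfl
  have hP : polyhedron A b = PP a β := by
    have h1 : polyhedron A b = PP (rows A) (rhs b) := by
      ext x
      exact mem_PP.symm
    rw [h1]
    ext x
    constructor
    · intro h i
      rw [hax]
      exact mul_le_mul_of_nonneg_left (h i) (hw i).le
    · intro h i
      have := h i
      rw [hax] at this
      exact le_of_mul_le_mul_left this (hw i)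
  have hval : ∀ c x : Fin n → ℝ, val c x = lf c x := fun c x => (lf_apply c x).symm
  have hzero : ∀ i x, a i x = 0 ↔ rows A i x = 0 := by
    intro i x
    rw [hax, mul_eq_zero]
    exact ⟨fun h => h.resolve_left (hw i).ne', Or.inr⟩
  rw [hP] at hv
  obtain ⟨N, z, h1, h2, h3, h4⟩ := mono_circ a β (lf c) hK0 (fun e he i j hi => by
    have h5 : Elem (rows A) e := ⟨he.1, fun g hg => he.2 g fun i h => (hzero i g).2
      (hg i ((hzero i e).1 h))⟩
    have h6 := hcirc e h5 i j fun h => hi ((hzero i e).2 h)
    rw [hax, hax, abs_mul, abs_mul, abs_of_pos (hw j), abs_of_pos (hw i)]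
    exact h6) (n := n) (by simp) v (Vert.of_extreme hv)
  obtain ⟨x, g1, g2, g3, g4⟩ := h2.seq
  refine ⟨N, ?_, x, g1, fun k hk => ?_, fun k hk => ⟨?_, ?_⟩, ?_⟩
  · exact_mod_cast h1
  · rw [hP]; exact (g3 k hk).extreme
  · rw [hP]; exact (g4 k hk).exposed
  · rw [hval, hval]; exact (g4 k hk).lt
  · rw [g2]
    rcases h4 with h | ⟨e, he, hce, hu⟩
    · left
      intro y hy
      rw [hval, hval]
      rw [hP] at hy
      exact h y hy
    · right
      refine ⟨e, ?_, ?_⟩
      · rw [hP]
        refine ray_exposed' h3 he fun t ht i => ?_
        rw [map_add, map_smul, smul_eq_mul]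
        have g5 := mul_nonpos_of_nonneg_of_nonpos ht (hu i)
        have g6 := h3.1 i
        linarith
      · rw [hval]; exact hce

/-- **Bounded subdeterminants or circuit imbalance: short improving paths.** -/
theorem result (m n K : ℕ) (A : Fin m → Fin n → ℝ) (hA : Balanced A K ∨ SmallDets A K)
    (b : Fin m → ℝ) (c v : Fin n → ℝ) (hv : v ∈ (polyhedron A b).extremePoints ℝ) :
    ∃ N ≤ n ^ 3 * K * (n * K + 1) ^ 2, ∃ x : ℕ → Fin n → ℝ, ImprovingPath A b c v N x :=
  paths m n K A hA b c v hv

end Pool.Agent.Results.MP_4d246d_lc.MonotoneDiameter
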